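import Mathlib

/-!
# Sign games in which the adversary owns a set of turns

The signs `ε_1, …, ε_n` are chosen one after the other, those with an index in `J` by an adversary
and the others by the player, who wins if the signing has the property `F`.  The number of the
sets `J` for which the player can force a win is the number of the signings with the property `F`.
-/

set_option autoImplicit false

namespace Pool.Agent.R814.Game

open Finset

/-- The player, who owns the turns `j` with `¬ J j`, can force the property `F`. -/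
def Wins {n : ℕ} (F : (Fin n → ℤˣ) → Prop) (J : Fin n → Prop) : Prop :=
  ∃ σ : Fin n → (Fin n → ℤˣ) → ℤˣ,
    (∀ j ε ε', (∀ i, i < j → ε i = ε' i) → σ j ε = σ j ε') ∧
    ∀ ε : Fin n → ℤˣ, (∀ j, ¬ J j → ε j = σ j ε) → F ε

theorem wins_adv {n : ℕ} (F : (Fin (n + 1) → ℤˣ) → Prop) (J : Fin (n + 1) → Prop) (h0 : J 0) :
    Wins F J ↔ ∀ s : ℤˣ, Wins (fun ε => F (Fin.cons s ε)) (fun i => J i.succ) := by
  constructor
  · rintro ⟨σ, hσ, hF⟩ s
    refine ⟨fun j ε => σ j.succ (Fin.cons s ε), ?_, ?_⟩
    · intro j ε ε' h
      apply hσ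
      intro i
      refine Fin.cases ?_ (fun i => ?_) i
      · intro _; simp
      · intro hi
        simp only [Fin.cons_succ]
        exact h i (Fin.succ_lt_succ_iff.1 hi)
    · intro ε h
      apply hF
      intro j
      refine Fin.cases ?_ (fun j => ?_) j
      · intro h1; exact absurd h0 h1
      · intro hj
        simp only [Fin.cons_succ]
        exact h j hj
  · intro h
    choose σ hσ hF using h
    refine ⟨fun j ε => Fin.cases (motive := fun _ => ℤˣ) 1 (fun i => σ (ε 0) i (Fin.tail ε)) j,
      ?_, ?_⟩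
    · intro j ε ε'
      refine Fin.cases ?_ (fun j => ?_) j
      · intro _; rfl
      · intro h
        simp only [Fin.cases_succ]
        rw [h 0 (Fin.succ_pos j)]
        apply hσ
        intro i hi
        exact h i.succ (Fin.succ_lt_succ_iff.2 hi)
    · intro ε h
      have h1 := hF (ε 0) (Fin.tail ε) (fun j hj => h j.succ hj)
      simpa using h1

theorem wins_own {n : ℕ} (F : (Fin (n + 1) → ℤˣ) → Prop) (J : Fin (n + 1) → Prop) (h0 : ¬ J 0) :
    Wins F J ↔ ∃ s : ℤˣ, Wins (fun ε => F (Fin.cons s ε)) (fun i => J i.succ) := by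
  constructor
  · rintro ⟨σ, hσ, hF⟩
    refine ⟨σ 0 (fun _ => 1), fun j ε => σ j.succ (Fin.cons (σ 0 (fun _ => 1)) ε), ?_, ?_⟩
    · intro j ε ε' h
      apply hσ
      intro i
      refine Fin.cases ?_ (fun i => ?_) i
      · intro _; simp
      · intro hi
        simp only [Fin.cons_succ]
        exact h i (Fin.succ_lt_succ_iff.1 hi)
    · intro ε h
      apply hF
      intro j
      refine Fin.cases ?_ (fun j => ?_) j
      · intro _
        simp only [Fin.cons_zero]
        apply hσ
        intro i hi
        exact absurd hi (Fin.not_lt_zero i)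
      · intro hj
        simp only [Fin.cons_succ]
        exact h j hj
  · rintro ⟨s, σ, hσ, hF⟩
    refine ⟨fun j ε => Fin.cases (motive := fun _ => ℤˣ) s (fun i => σ i (Fin.tail ε)) j,
      ?_, ?_⟩
    · intro j ε ε'
      refine Fin.cases ?_ (fun j => ?_) j
      · intro _; rfl
      · intro h
        simp only [Fin.cases_succ]
        apply hσ
        intro i hi
        exact h i.succ (Fin.succ_lt_succ_iff.2 hi)
    · intro ε h
      have h1 := hF (Fin.tail ε) (fun j hj => h j.succ hj)
      have h2 : ε 0 = s := h 0 h0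
      rw [← h2] at h1
      simpa using h1

theorem sum_cons {α : Type} [Fintype α] {n : ℕ} (f : (Fin (n + 1) → α) → ℕ) :
    ∑ x, f x = ∑ a : α, ∑ y : Fin n → α, f (Fin.cons a y) := by
  rw [← Equiv.sum_comp (Fin.consEquiv (fun _ => α)), Fintype.sum_prod_type]
  rfl

open Classical in
theorem sum_wins : ∀ {n : ℕ} (F : (Fin n → ℤˣ) → Prop),
    (∑ J : Fin n → Bool, if Wins F (fun i => J i = true) then 1 else 0) =
      ∑ ε : Fin n → ℤˣ, if F ε then 1 else 0 := by
  intro n
  induction n with
  | zero =>
    intro F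
    simp only [Finset.univ_unique, Finset.sum_singleton]
    refine if_congr ?_ rfl rfl
    constructor
    · rintro ⟨σ, _, hF⟩
      exact hF _ (fun j => j.elim0)
    · intro h
      refine ⟨fun j => j.elim0, fun j => j.elim0, fun ε _ => ?_⟩
      exact cast (congrArg F (Subsingleton.elim _ _)) h
  | succ n ih =>
    intro F
    rw [sum_cons, sum_cons]
    have h1 : ∀ J : Fin n → Bool,
        Wins F (fun i => (Fin.cons true J : Fin (n + 1) → Bool) i = true) ↔
          (Wins (fun ε => F (Fin.cons 1 ε)) (fun i => J i = true) ∧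
            Wins (fun ε => F (Fin.cons (-1) ε)) (fun i => J i = true)) := by
      intro J
      rw [wins_adv _ _ (by simp)]
      simp only [Fin.cons_succ]
      constructor
      · intro h; exact ⟨h 1, h (-1)⟩
      · rintro ⟨ha, hb⟩ s
        rcases Int.units_eq_one_or s with rfl | rfl
        · exact ha
        · exact hb
    have h2 : ∀ J : Fin n → Bool,
        Wins F (fun i => (Fin.cons false J : Fin (n + 1) → Bool) i = true) ↔
          (Wins (fun ε => F (Fin.cons 1 ε)) (fun i => J i = true) ∨
            Wins (fun ε => F (Fin.cons (-1) ε)) (fun i => J i = true)) := by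
      intro J
      rw [wins_own _ _ (by simp)]
      simp only [Fin.cons_succ]
      constructor
      · rintro ⟨s, hs⟩
        rcases Int.units_eq_one_or s with rfl | rfl
        · exact Or.inl hs
        · exact Or.inr hs
      · rintro (h | h)
        · exact ⟨1, h⟩
        · exact ⟨-1, h⟩
    have hu : (Finset.univ : Finset ℤˣ) = {1, -1} := by decide
    rw [hu, Finset.sum_pair (by decide), ← ih, ← ih, Fintype.sum_bool, ← Finset.sum_add_distrib,
      ← Finset.sum_add_distrib]
    refine Finset.sum_congr rfl fun J _ => ?_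
    rw [if_congr (h1 J) rfl rfl, if_congr (h2 J) rfl rfl]
    by_cases ha : Wins (fun ε => F (Fin.cons 1 ε)) (fun i => J i = true) <;>
      by_cases hb : Wins (fun ε => F (Fin.cons (-1) ε)) (fun i => J i = true) <;>
      simp [ha, hb]

/-- sets and Boolean functions -/
def toF (n : ℕ) : (Fin n → Bool) ≃ Finset (Fin n) where
  toFun J := Finset.univ.filter (fun i => J i = true)
  invFun s i := decide (i ∈ s)
  left_inv J := by
    funext i
    by_cases h : J i = true <;> simp [h]
  right_inv s := by
    ext i
    simp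

/-- **The number of the sets of turns which the player can give away** is the number of the
winning signings. -/
theorem card_wins {n : ℕ} (F : (Fin n → ℤˣ) → Prop) :
    Nat.card {J : Finset (Fin n) // Wins F (fun i => i ∈ J)} = Nat.card {ε // F ε} := by
  classical
  have h1 : Nat.card {J : Finset (Fin n) // Wins F (fun i => i ∈ J)} =
      Nat.card {J : Fin n → Bool // Wins F (fun i => J i = true)} := by
    refine Nat.card_congr (Equiv.subtypeEquiv (toF n) ?_).symm
    intro J
    have : (fun i => i ∈ toF n J) = (fun i => J i = true) := by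
      funext i
      simp [toF]
    rw [this]
  rw [h1, Nat.card_eq_fintype_card, Nat.card_eq_fintype_card, Fintype.card_subtype,
    Fintype.card_subtype, Finset.card_filter, Finset.card_filter]
  exact sum_wins F

/-- Hoeffding's inequality for the number of small subsets. -/
theorem card_small (n : ℕ) (s : ℝ) (hs : 0 ≤ s) :
    ((Finset.univ.filter (fun J : Finset (Fin n) => (J.card : ℝ) < n / 2 - s * n)).card : ℝ) ≤
      2 ^ n * Real.exp (-(2 * s ^ 2 * n)) := by
  have h1 : ∑ J : Finset (Fin n), Real.exp (2 * s * (n - 2 * J.card)) =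
      (Real.exp (-(2 * s)) + Real.exp (2 * s)) ^ n := by
    have h := Finset.sum_pow_mul_eq_add_pow (Real.exp (-(2 * s))) (Real.exp (2 * s))
      (Finset.univ : Finset (Fin n))
    rw [Finset.card_univ, Fintype.card_fin, Finset.powerset_univ] at h
    rw [← h]
    refine Finset.sum_congr rfl fun J _ => ?_
    have hJ : J.card ≤ n := by
      have := Finset.card_le_univ J
      rwa [Fintype.card_fin] at this
    rw [← Real.exp_nat_mul, ← Real.exp_nat_mul, ← Real.exp_add, Nat.cast_sub hJ]
    congr 1
    ring
  have h2 : (Real.exp (-(2 * s)) + Real.exp (2 * s)) ^ n ≤ 2 ^ n * Real.exp (2 * s ^ 2 * n) := by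
    have h3 : Real.exp (-(2 * s)) + Real.exp (2 * s) ≤ 2 * Real.exp (2 * s ^ 2) := by
      have h4 := Real.cosh_le_exp_half_sq (2 * s)
      rw [Real.cosh_eq] at h4
      have h5 : (2 * s) ^ 2 / 2 = 2 * s ^ 2 := by ring
      rw [h5] at h4
      linarith
    calc (Real.exp (-(2 * s)) + Real.exp (2 * s)) ^ n ≤ (2 * Real.exp (2 * s ^ 2)) ^ n :=
          pow_le_pow_left₀ (by positivity) h3 n
      _ = 2 ^ n * Real.exp (2 * s ^ 2 * n) := by
          rw [mul_pow, ← Real.exp_nat_mul]
          congr 2
          ring
  have h3 : ((Finset.univ.filter (fun J : Finset (Fin n) => (J.card : ℝ) < n / 2 - s * n)).card : ℝ)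
      * Real.exp (4 * s ^ 2 * n) ≤ ∑ J : Finset (Fin n), Real.exp (2 * s * (n - 2 * J.card)) := by
    rw [← nsmul_eq_mul, ← Finset.sum_const]
    refine (Finset.sum_le_sum fun J hJ => ?_).trans
      (Finset.sum_le_sum_of_subset_of_nonneg (Finset.filter_subset _ _) fun J _ _ =>
        (Real.exp_pos _).le)
    rw [Finset.mem_filter] at hJ
    apply Real.exp_le_exp.2
    have h4 : 2 * (s * n) ≤ n - 2 * J.card := by linarith [hJ.2]
    have h5 := mul_le_mul_of_nonneg_left h4 (by linarith : 0 ≤ 2 * s)
    linarith
  rw [h1] at h3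
  have h6 := h3.trans h2
  have h7 : Real.exp (-(2 * s ^ 2 * n)) = Real.exp (2 * s ^ 2 * n) * Real.exp (-(4 * s ^ 2 * n)) := by
    rw [← Real.exp_add]
    congr 1
    ring
  rw [h7, ← mul_assoc]
  have h8 : Real.exp (4 * s ^ 2 * n) * Real.exp (-(4 * s ^ 2 * n)) = 1 := by
    rw [← Real.exp_add]
    simp
  have h9 := mul_le_mul_of_nonneg_right h6 (Real.exp_pos (-(4 * s ^ 2 * n))).le
  rwa [mul_assoc, h8, mul_one] at h9

/-- If there are many sets with the property `W`, one of them has almost `n / 2` elements. -/
theorem exists_large {n : ℕ} (W : Finset (Fin n) → Prop) (a s : ℝ) (hs : 0 ≤ s)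
    (has : a < 2 * s ^ 2)
    (h : 2 ^ n * Real.exp (-(a * n)) ≤ (Nat.card {J : Finset (Fin n) // W J} : ℝ)) :
    ∃ J, W J ∧ (n : ℝ) / 2 - s * n ≤ J.card := by
  classical
  rw [Nat.card_eq_fintype_card, Fintype.card_subtype] at h
  rcases Nat.eq_zero_or_pos n with rfl | hn
  · have h1 : (0:ℝ) < ((Finset.univ.filter fun J : Finset (Fin 0) => W J).card : ℝ) :=
      lt_of_lt_of_le (by positivity) h
    have h2 : 0 < (Finset.univ.filter fun J : Finset (Fin 0) => W J).card := by exact_mod_cast h1
    obtain ⟨J, hJ⟩ := Finset.card_pos.1 h2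
    refine ⟨J, (Finset.mem_filter.1 hJ).2, ?_⟩
    simp
  · by_contra hcon
    push Not at hcon
    have h1 : Finset.univ.filter (fun J : Finset (Fin n) => W J) ⊆
        Finset.univ.filter (fun J : Finset (Fin n) => (J.card : ℝ) < n / 2 - s * n) := by
      intro J hJ
      rw [Finset.mem_filter] at hJ ⊢
      exact ⟨hJ.1, hcon J hJ.2⟩
    have h2 : ((Finset.univ.filter (fun J : Finset (Fin n) => W J)).card : ℝ) ≤
        ((Finset.univ.filter
          (fun J : Finset (Fin n) => (J.card : ℝ) < n / 2 - s * n)).card : ℝ) := by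
      exact_mod_cast Finset.card_le_card h1
    have h3 := (h.trans h2).trans (card_small n s hs)
    have h4 := le_of_mul_le_mul_left h3 (by positivity)
    have h5 := Real.exp_le_exp.1 h4
    have hn0 : (0:ℝ) < n := by exact_mod_cast hn
    nlinarith

theorem Wins.exists_sign {n : ℕ} {F : (Fin n → ℤˣ) → Prop} {J : Finset (Fin n)}
    (h : Wins F (fun i => i ∈ J)) : ∃ ε, F ε := by
  classical
  have h1 : 0 < Nat.card {J : Finset (Fin n) // Wins F (fun i => i ∈ J)} := by
    rw [Nat.card_eq_fintype_card]
    exact Fintype.card_pos_iff.2 ⟨⟨J, h⟩⟩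
  rw [card_wins] at h1
  obtain ⟨⟨ε, hε⟩⟩ := (Nat.card_pos_iff.1 h1).1
  exact ⟨ε, hε⟩

end Pool.Agent.R814.Game
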